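import Mathlib
import Pool.Agent.H452Z.CortexDefs
import Pool.Agent.H452Z.CortexAlg

namespace Pool.Agent.Results.MP_6331ea_an.PermanenceNotCortex

open Pool.Agent.H452Z.Cortex

universe v

/-- There is a unital commutative complex Banach algebra with the spectral permanence property
which is not a cortex algebra: some character does not extend to a character of some commutative
Banach algebra containing it isometrically as a closed subalgebra with the same unit. -/
theorem result :
    ∃ (A : Type) (_ : NormedCommRing A) (_ : NormedAlgebra ℂ A) (_ : CompleteSpace A)
      (_ : NormOneClass A),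
      SpectralPermanence.{0, v} A ∧
        ∃ φ : A →ₗ[ℂ] ℂ, IsCharacter φ ∧ ¬ ExtendsToIsometricSuperalgebras.{0, 0} φ :=
  ⟨alg, inferInstance, inferInstance, inferInstance, alg_normOne, alg_spectralPermanence,
    ev.toLinearMap, ev_isCharacter, ev_not_extends⟩

end Pool.Agent.Results.MP_6331ea_an.PermanenceNotCortex
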